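import Pool.Agent.Helper86.QA.St4

/-!
# Project QD (MP_d112a4_gt), module KDG: a good group gives Kleinian data
-/

set_option autoImplicit false

open MeasureTheory Matrix Set Topology Filter
open scoped ENNReal ComplexConjugate ComplexOrder

namespace Pool.Agent.Helper99.QA

open Pool.Agent.Helper86.QA Pool.Agent.Helper20

theorem hKDG (hKEG : StKEG) (hKCP : StKCP) (hKNU : StKNU) : StKDG := by
  intro Γ _ ρ p hG hp htf
  obtain ⟨hE, hCC, hQ, hdis, hsph⟩ := hKEG Γ ρ p hG hp
  have hc := hKCP Γ (QD.cj (gi p) ρ) (sA ρ p) (sB ρ p) hCC hE.opA hE.opB hE.dis hQ hdis hsph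
  exact
    { tf := htf
      disc := hE.disc
      opA := hE.opA
      opB := hE.opB
      neA := hE.neA
      neB := hE.neB
      dis := hE.dis
      nul := hKNU Γ (QD.cj (gi p) ρ) (sA ρ p) (sB ρ p) hE hc
      mpA := hE.mpA
      mpB := hE.mpB
      cpt := hc }

end Pool.Agent.Helper99.QA
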