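import Pool.Agent.Helper86.QA.St5

/-!
# Project QD (MP_d112a4_gt), module AFD: the action on the disc, fundamental domains
-/

set_option autoImplicit false

open MeasureTheory Matrix Set Topology Filter
open scoped ENNReal ComplexConjugate ComplexOrder

namespace Pool.Agent.Helper99.QA

open Pool.Agent.Helper86.QA Pool.Agent.Helper20
open Pool.Agent.Helper20.QD (Fuch IsSU mob dz dzb)
open Pool.Agent.Helper35.PM (hs IsDiscrete)

private theorem AFD_det (A : SL) (hA : IsSU A) : ‖A 0 0‖ ^ 2 - ‖A 0 1‖ ^ 2 = 1 := by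
  have h := A.det_coe
  rw [Matrix.det_fin_two, hA.1, hA.2, Complex.mul_conj, Complex.mul_conj] at h
  rw [← Complex.normSq_eq_norm_sq, ← Complex.normSq_eq_norm_sq]
  exact_mod_cast h

private theorem AFD_hs (A : SL) (hA : IsSU A) : hs (A : Mat) ≤ 4 * ‖A 0 0‖ ^ 2 := by
  have h := AFD_det A hA
  have e : hs (A : Mat) = 2 * ‖A 0 0‖ ^ 2 + 2 * ‖A 0 1‖ ^ 2 := by
    unfold hs
    rw [Fin.sum_univ_two, Fin.sum_univ_two, Fin.sum_univ_two, hA.1, hA.2, Complex.norm_conj,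
      Complex.norm_conj]
    ring
  rw [e]
  linarith

private theorem AFD_den (A : SL) (hA : IsSU A) (y : ℂ) :
    ‖QD.den A y‖ ^ 2 - ‖A 0 0 * y + A 0 1‖ ^ 2 = 1 - ‖y‖ ^ 2 := by
  have h := AFD_det A hA
  have e : QD.den A y = conj (A 0 1) * y + conj (A 0 0) := by
    unfold QD.den
    rw [hA.1, hA.2]
  rw [e]
  generalize A 0 0 = a at *
  generalize A 0 1 = b at *
  rw [← Complex.normSq_eq_norm_sq, ← Complex.normSq_eq_norm_sq, Complex.normSq_apply,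
    Complex.normSq_apply] at h
  rw [← Complex.normSq_eq_norm_sq, ← Complex.normSq_eq_norm_sq, ← Complex.normSq_eq_norm_sq,
    Complex.normSq_apply, Complex.normSq_apply, Complex.normSq_apply]
  simp only [Complex.add_re, Complex.add_im, Complex.mul_re, Complex.mul_im, Complex.conj_re,
    Complex.conj_im]
  linear_combination (1 - (y.re * y.re + y.im * y.im)) * h

private theorem AFD_bd (A : SL) (hA : IsSU A) (R : ℝ) (hR : R < 1) (y : ℂ) (hy : ‖y‖ ≤ R)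
    (hm : ‖mob A y‖ ≤ R) (hd : QD.den A y ≠ 0) :
    hs (A : Mat) ≤ 4 / ((1 - R) ^ 2 * (1 - R ^ 2)) := by
  have hR0 : 0 ≤ R := (norm_nonneg y).trans hy
  have h1 := AFD_den A hA y
  have hnum : ‖A 0 0 * y + A 0 1‖ = ‖mob A y‖ * ‖QD.den A y‖ := by
    have : mob A y = (A 0 0 * y + A 0 1) / QD.den A y := rfl
    rw [this, norm_div, div_mul_cancel₀ _ (norm_ne_zero_iff.2 hd)]
  have hden : ‖QD.den A y‖ ^ 2 * (1 - R ^ 2) ≤ 1 := by
    have h2 : ‖A 0 0 * y + A 0 1‖ ^ 2 ≤ R ^ 2 * ‖QD.den A y‖ ^ 2 := by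
      rw [hnum, mul_pow]
      gcongr
    nlinarith [sq_nonneg ‖y‖]
  have hb : ‖A 0 1‖ ≤ ‖A 0 0‖ := by
    have h3 := AFD_det A hA
    nlinarith [norm_nonneg (A 0 0), norm_nonneg (A 0 1)]
  have hlow : ‖A 0 0‖ * (1 - R) ≤ ‖QD.den A y‖ := by
    have e : QD.den A y = conj (A 0 1) * y + conj (A 0 0) := by
      unfold QD.den
      rw [hA.1, hA.2]
    have h4 : ‖conj (A 0 0)‖ ≤ ‖QD.den A y‖ + ‖conj (A 0 1) * y‖ := by
      have h5 : conj (A 0 0) = QD.den A y - conj (A 0 1) * y := by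
        rw [e]
        ring
      rw [h5]
      exact norm_sub_le _ _
    rw [norm_mul, Complex.norm_conj, Complex.norm_conj] at h4
    have h6 : ‖A 0 1‖ * ‖y‖ ≤ ‖A 0 0‖ * R := by gcongr
    linarith
  have hlow2 : (‖A 0 0‖ * (1 - R)) ^ 2 ≤ ‖QD.den A y‖ ^ 2 := by
    have : 0 ≤ ‖A 0 0‖ * (1 - R) := mul_nonneg (norm_nonneg _) (by linarith)
    gcongr
  have hRp : 0 < 1 - R ^ 2 := by nlinarith
  have hRq : 0 < (1 - R) ^ 2 := by
    have : 0 < 1 - R := by linarith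
    positivity
  refine (AFD_hs A hA).trans ?_
  rw [le_div_iff₀ (mul_pos hRq hRp)]
  have h7 : (‖A 0 0‖ * (1 - R)) ^ 2 * (1 - R ^ 2) ≤ 1 :=
    (mul_le_mul_of_nonneg_right hlow2 hRp.le).trans hden
  nlinarith

private theorem AFD_cont (A : SL) (z : ℂ) (hd : QD.den A z ≠ 0) : ContinuousAt (mob A) z := by
  have h1 : ContinuousAt (fun y : ℂ => (A 0 0 * y + A 0 1) / QD.den A y) z := by
    refine ContinuousAt.div (by fun_prop) ?_ hd
    unfold QD.den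
    fun_prop
  exact h1

private theorem AFD_act (hCHV : StCHV) (hAD1 : StAD1) (hMQ1 : StMQ1) (Γ : Type) [Group Γ]
    (σ : Γ →* SL) (hF : Fuch σ) : ActOn (ad σ) (Metric.ball 0 1) m2 where
  mS := measurableSet_ball
  nS := hMQ1.2.1
  ms := fun γ x hx => (hAD1.2.2.2.2.1 (σ γ) (hF.su γ) x).2.1 hx
  one := fun x _ => by
    have h : ad σ 1 x = mb 1 x := by
      unfold ad
      rw [map_one]
      rfl
    rw [h, hCHV.2.2.2.1]
  mul := fun γ δ x hx => by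
    have hd := ((hAD1.2.2.2.2.1 (σ δ) (hF.su δ) x).1 (Metric.ball_subset_closedBall hx)).1
    have h : ad σ (γ * δ) x = mb (σ γ * σ δ) x := by
      unfold ad
      rw [map_mul]
      rfl
    rw [h, (hCHV.2.1 (σ γ) (σ δ) x hd).1]
    rfl
  me := fun γ => hCHV.2.2.2.2 (σ γ)
  pr := fun γ f hf => hMQ1.2.2.1 (σ γ) (hF.su γ) f hf

private theorem AFD_countable (Γ : Type) [Group Γ] (σ : Γ →* SL) (hF : Fuch σ) : Countable Γ := by
  rw [← Set.countable_univ_iff]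
  have h : (univ : Set Γ) ⊆ ⋃ n : ℕ, {γ : Γ | hs (σ γ : Mat) ≤ n} := by
    intro γ _
    obtain ⟨n, hn⟩ := exists_nat_ge (hs (σ γ : Mat))
    exact mem_iUnion.2 ⟨n, hn⟩
  exact (countable_iUnion fun n : ℕ => (hF.discrete (n : ℝ)).countable).mono h

private theorem AFD_free (Γ : Type) [Group Γ] (σ : Γ →* SL) (hF : Fuch σ)
    (htf : ∀ (γ : Γ) (n : ℕ), 1 ≤ n → γ ^ n = 1 → γ = 1) (hAD1 : StAD1)
    (hact : ActOn (ad σ) (Metric.ball 0 1) m2) (z : ℂ) (hz : z ∈ Metric.ball (0 : ℂ) 1) :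
    ∃ W : Set ℂ, IsOpen W ∧ z ∈ W ∧ W ⊆ Metric.ball 0 1 ∧
      ∀ γ : Γ, γ ≠ 1 → ∀ y ∈ W, ad σ γ y ∉ W := by
  have hz1 : ‖z‖ < 1 := mem_ball_zero_iff.1 hz
  obtain ⟨R, hRd⟩ : ∃ R, R = (1 + ‖z‖) / 2 := ⟨_, rfl⟩
  have hR : R < 1 := by linarith
  obtain ⟨X, hX⟩ : ∃ X, X = 4 / ((1 - R) ^ 2 * (1 - R ^ 2)) := ⟨_, rfl⟩
  have hB : ∀ y ∈ Metric.ball (0 : ℂ) R, ∀ γ : Γ, ad σ γ y ∈ Metric.ball (0 : ℂ) R →
      γ ∈ {γ : Γ | hs (σ γ : Mat) ≤ X} := by
    intro y hy γ hγ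
    have hy1 : ‖y‖ < R := mem_ball_zero_iff.1 hy
    have hy2 : y ∈ Metric.closedBall (0 : ℂ) 1 := mem_closedBall_zero_iff.2 (by linarith)
    show hs (σ γ : Mat) ≤ X
    rw [hX]
    exact AFD_bd (σ γ) (hF.su γ) R hR y hy1.le (mem_ball_zero_iff.1 hγ).le
      ((hAD1.2.2.2.2.1 (σ γ) (hF.su γ) y).1 hy2).1
  have hzR : z ∈ Metric.ball (0 : ℂ) R := mem_ball_zero_iff.2 (by linarith)
  have hT : {γ : Γ | hs (σ γ : Mat) ≤ X}.Finite := hF.discrete X
  have hfix : ∀ γ : Γ, γ ≠ 1 → ad σ γ z ≠ z := by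
    intro γ hγ hfx
    have hp : ∀ n : ℕ, ad σ (γ ^ n) z = z := by
      intro n
      induction n with
      | zero => rw [pow_zero, hact.one z hz]
      | succ n ih => rw [pow_succ, hact.mul _ _ z hz, hfx, ih]
    have hni : ¬ Function.Injective (fun n : ℕ => γ ^ n) := by
      intro hi
      refine Set.infinite_range_of_injective hi (hT.subset ?_)
      rintro _ ⟨n, rfl⟩
      exact hB z hzR (γ ^ n) (by rw [hp n]; exact hzR)
    apply hni
    intro m n hmn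
    rcases lt_trichotomy m n with h | h | h
    · exfalso
      have h1 : γ ^ (n - m) = 1 := by
        have h2 : γ ^ m * γ ^ (n - m) = γ ^ m * 1 := by
          rw [← pow_add, Nat.add_sub_cancel' h.le, mul_one]
          exact hmn.symm
        exact mul_left_cancel h2
      exact hγ (htf γ (n - m) (by omega) h1)
    · exact h
    · exfalso
      have h1 : γ ^ (m - n) = 1 := by
        have h2 : γ ^ n * γ ^ (m - n) = γ ^ n * 1 := by
          rw [← pow_add, Nat.add_sub_cancel' h.le, mul_one]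
          exact hmn
        exact mul_left_cancel h2
      exact hγ (htf γ (m - n) (by omega) h1)
  have hloc : ∀ γ : Γ, ∃ O : Set ℂ, IsOpen O ∧ z ∈ O ∧ (γ ≠ 1 → ∀ y ∈ O, ad σ γ y ∉ O) := by
    intro γ
    by_cases hγ : γ = 1
    · exact ⟨univ, isOpen_univ, mem_univ z, fun h => absurd hγ h⟩
    have hd := ((hAD1.2.2.2.2.1 (σ γ) (hF.su γ) z).1 (Metric.ball_subset_closedBall hz)).1
    have hc : ContinuousAt (ad σ γ) z := AFD_cont (σ γ) z hd
    obtain ⟨u, v, hu, hv, hzu, hzv, huv⟩ := t2_separation (hfix γ hγ).symm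
    have hn : u ∩ ad σ γ ⁻¹' v ∈ 𝓝 z :=
      inter_mem (hu.mem_nhds hzu) (hc.preimage_mem_nhds (hv.mem_nhds hzv))
    refine ⟨interior (u ∩ ad σ γ ⁻¹' v), isOpen_interior, mem_interior_iff_mem_nhds.2 hn, ?_⟩
    intro _ y hy hy'
    have h1 : ad σ γ y ∈ v := (interior_subset hy).2
    have h2 : ad σ γ y ∈ u := (interior_subset hy').1
    exact Set.disjoint_left.1 huv h2 h1
  choose O hO1 hO2 hO3 using hloc
  refine ⟨Metric.ball 0 R ∩ ⋂ γ ∈ {γ : Γ | hs (σ γ : Mat) ≤ X}, O γ,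
    Metric.isOpen_ball.inter (hT.isOpen_biInter fun γ _ => hO1 γ),
    ⟨hzR, mem_iInter₂.2 fun γ _ => hO2 γ⟩, ?_, ?_⟩
  · exact inter_subset_left.trans (Metric.ball_subset_ball hR.le)
  · intro γ hγ y hy hy'
    have h1 := hB y hy.1 γ hy'.1
    exact hO3 γ hγ y (mem_iInter₂.1 hy.2 γ h1) (mem_iInter₂.1 hy'.2 γ h1)

private theorem AFD_m2 (F : Set ℂ) (hm : MeasurableSet F) (hs : F ⊆ Metric.ball 0 1) :
    m2 F = ∫⁻ z in F, ENNReal.ofReal (4 / (1 - ‖z‖ ^ 2) ^ 2) := by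
  unfold m2
  rw [withDensity_apply _ hm, Measure.restrict_restrict hm, inter_eq_left.2 hs]

private theorem AFD_ball : m2 (Metric.ball 0 1) ≠ 0 := by
  rw [AFD_m2 _ measurableSet_ball le_rfl]
  have h : ∫⁻ _ in Metric.ball (0 : ℂ) 1, (4 : ℝ≥0∞) ≤
      ∫⁻ z in Metric.ball (0 : ℂ) 1, ENNReal.ofReal (4 / (1 - ‖z‖ ^ 2) ^ 2) := by
    refine setLIntegral_mono' measurableSet_ball ?_
    intro z hz
    have hz1 : ‖z‖ < 1 := mem_ball_zero_iff.1 hz
    have h1 : 0 < 1 - ‖z‖ ^ 2 := by nlinarith [norm_nonneg z]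
    have h2 : 1 - ‖z‖ ^ 2 ≤ 1 := by nlinarith [sq_nonneg ‖z‖]
    have h3 : (4 : ℝ) ≤ 4 / (1 - ‖z‖ ^ 2) ^ 2 := by
      rw [le_div_iff₀ (by positivity)]
      nlinarith
    calc (4 : ℝ≥0∞) = ENNReal.ofReal 4 := by norm_num
      _ ≤ _ := ENNReal.ofReal_le_ofReal h3
  intro h0
  rw [h0, nonpos_iff_eq_zero, setLIntegral_const, mul_eq_zero] at h
  rcases h with h | h
  · norm_num at h
  · exact (Metric.measure_ball_pos volume (0 : ℂ) one_pos).ne' h

theorem hAFD (hCHV : StCHV) (hFDX : StFDX) (hSW1 : StSW1) (hAD1 : StAD1) (hMQ1 : StMQ1) :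
    StAFD := by
  intro Γ _ σ hF htf
  have hC : Countable Γ := AFD_countable Γ σ hF
  have hact := AFD_act hCHV hAD1 hMQ1 Γ σ hF
  have : SigmaFinite m2 := hMQ1.1
  have hsame : ∀ F F' : Set ℂ, FDOn (ad σ) (Metric.ball 0 1) F →
      FDOn (ad σ) (Metric.ball 0 1) F' → m2 F = m2 F' := by
    intro F F' h1 h2
    have h := (hSW1 Γ ℂ (ad σ) (Metric.ball 0 1) F m2 (fun _ => 1) hact h1 measurable_const
      (fun _ _ _ => rfl)).2 F' h2
    simpa using h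
  have hex : ∃ (F : Set ℂ) (r : ℝ), r < 1 ∧ FDOn (ad σ) (Metric.ball 0 1) F ∧
      F ⊆ Metric.closedBall 0 r := by
    obtain ⟨r, hr, hco⟩ := hF.cocompact
    obtain ⟨F, hFD, hU⟩ := hFDX Γ ℂ (ad σ) (Metric.ball 0 1) (Metric.ball 0 ((r + 1) / 2))
      Metric.isOpen_ball hact.ms hact.one hact.mul hact.me
      (fun z hz => AFD_free Γ σ hF htf hAD1 hact z hz) Metric.isOpen_ball
      (Metric.ball_subset_ball (by linarith))
    refine ⟨F, (r + 1) / 2, by linarith, hFD, ?_⟩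
    intro x hx
    obtain ⟨γ, hγ⟩ := hco x (hFD.sub hx)
    exact Metric.ball_subset_closedBall
      (hU x hx γ (mem_ball_zero_iff.2 (lt_of_le_of_lt hγ (by linarith))))
  refine ⟨hC, hact, hex, ?_, hsame⟩
  intro F hFD
  refine ⟨?_, ?_, ?_⟩
  · obtain ⟨F0, r, hr, hFD0, hsub⟩ := hex
    rw [hsame F F0 hFD hFD0]
    exact (measure_mono hsub).trans_lt (hMQ1.2.2.2.2.2.2 r hr)
  · rw [pos_iff_ne_zero]
    intro h0
    apply AFD_ball
    have hcov : Metric.ball (0 : ℂ) 1 ⊆ ⋃ γ : Γ, ad σ γ ⁻¹' F := by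
      intro x hx
      obtain ⟨γ, hγ, -⟩ := hFD.ex x hx
      exact mem_iUnion.2 ⟨γ, hγ⟩
    refine measure_mono_null hcov (measure_iUnion_null fun γ => ?_)
    have h1 := hact.pr γ (F.indicator 1) (measurable_one.indicator hFD.mD)
    have h2 : ∫⁻ x, F.indicator 1 (ad σ γ x) ∂m2 = m2 (ad σ γ ⁻¹' F) := by
      rw [← lintegral_indicator_one (hact.me γ hFD.mD)]
      rfl
    rw [h2, lintegral_indicator_one hFD.mD, h0] at h1
    exact h1
  · rw [AFD_m2 F hFD.mD hFD.sub]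
    unfold ar2
    rw [integral_eq_lintegral_of_nonneg_ae]
    · exact Eventually.of_forall fun z => by
        show (0 : ℝ) ≤ 4 / (1 - ‖z‖ ^ 2) ^ 2
        positivity
    · have : Measurable (fun z : ℂ => 4 / (1 - ‖z‖ ^ 2) ^ 2) := by fun_prop
      exact this.aestronglyMeasurable

end Pool.Agent.Helper99.QA
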