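import Pool.Agent.Helper86.QA.St1

/-!
# Project QD, part A (MP_d112a4_gt): module CHI, hyperbolic cosine of the distance
-/

set_option autoImplicit false

open MeasureTheory Matrix Set Topology
open scoped ENNReal ComplexConjugate

namespace Pool.Agent.Helper99.QA

open Pool.Agent.Helper86.QA

private theorem det_Xm (x : Pt) (hx : x ∈ up) : (Xm x).det = 1 := by
  have ht : (x.2 : ℂ) ≠ 0 := by exact_mod_cast (ne_of_gt hx)
  have h1 := Complex.mul_conj' x.1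
  unfold Xm
  rw [Matrix.det_fin_two_of]
  push_cast
  field_simp
  linear_combination -h1

private theorem inv_Xm (x : Pt) (hx : x ∈ up) : (Xm x)⁻¹ = !![((1 / x.2 : ℝ) : ℂ), -(x.1 / (x.2 : ℂ));
      -(conj x.1 / (x.2 : ℂ)), (((‖x.1‖ ^ 2 + x.2 ^ 2) / x.2 : ℝ) : ℂ)] := by
  rw [Matrix.inv_def, det_Xm x hx, Ring.inverse_one, one_smul]
  unfold Xm
  rw [Matrix.adjugate_fin_two_of]

private theorem herm_Xm (x : Pt) : (Xm x)ᴴ = Xm x := by
  unfold Xm
  ext i j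
  fin_cases i <;> fin_cases j <;> simp

private theorem trace_Xm (x y : Pt) (hx : x ∈ up) (hy : y ∈ up) :
    ((Xm x)⁻¹ * Xm y).trace = ((2 * ch x y : ℝ) : ℂ) := by
  have ht : (x.2 : ℂ) ≠ 0 := by exact_mod_cast (ne_of_gt hx)
  have hs : (y.2 : ℂ) ≠ 0 := by exact_mod_cast (ne_of_gt hy)
  have h1 := Complex.mul_conj' x.1
  have h2 := Complex.mul_conj' y.1
  have h3 := Complex.mul_conj' (x.1 - y.1)
  rw [map_sub] at h3
  rw [inv_Xm x hx]
  unfold Xm ch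
  rw [Matrix.trace_fin_two, Matrix.mul_apply, Matrix.mul_apply, Fin.sum_univ_two, Fin.sum_univ_two]
  simp only [Matrix.of_apply, Matrix.cons_val', Matrix.cons_val_zero, Matrix.cons_val_one,
    Matrix.cons_val_fin_one]
  push_cast
  rw [← h3, ← h1, ← h2]
  field_simp
  ring

private theorem ch_ga (hACT : StACT) (g : SL) (x y : Pt) (hx : x ∈ up) (hy : y ∈ up) :
    ch (ga g x) (ga g y) = ch x y := by
  obtain ⟨a1, _⟩ := hACT
  obtain ⟨_, b2, b3⟩ := a1 g x hx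
  obtain ⟨_, c2, c3⟩ := a1 g y hy
  have hdet : IsUnit ((g : Mat)).det := by rw [Matrix.SpecialLinearGroup.det_coe]; exact isUnit_one
  have hdet2 : IsUnit ((g : Mat)ᴴ).det := by
    rw [Matrix.det_conjTranspose, Matrix.SpecialLinearGroup.det_coe, star_one]
    exact isUnit_one
  have h1 := trace_Xm (ga g x) (ga g y) b2 c2
  have h2 := trace_Xm x y hx hy
  have h3 : (Xm (ga g x))⁻¹ * Xm (ga g y) = ((g : Mat)ᴴ)⁻¹ * ((Xm x)⁻¹ * Xm y) * (g : Mat)ᴴ := by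
    rw [b3, c3, Matrix.mul_inv_rev, Matrix.mul_inv_rev]
    calc ((g : Mat)ᴴ)⁻¹ * ((Xm x)⁻¹ * (g : Mat)⁻¹) * ((g : Mat) * Xm y * (g : Mat)ᴴ)
        = ((g : Mat)ᴴ)⁻¹ * ((Xm x)⁻¹ * (((g : Mat)⁻¹ * (g : Mat)) * Xm y)) * (g : Mat)ᴴ := by
          simp only [Matrix.mul_assoc]
      _ = _ := by rw [Matrix.nonsing_inv_mul _ hdet, Matrix.one_mul]
  rw [h3, Matrix.trace_mul_comm, ← Matrix.mul_assoc, Matrix.mul_nonsing_inv _ hdet2, Matrix.one_mul, h2] at h1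
  have h4 : 2 * ch x y = 2 * ch (ga g x) (ga g y) := by exact_mod_cast h1
  linarith

private theorem ch_tri (x y z : Pt) (hx : x ∈ up) (hy : y ∈ up) (hz : z ∈ up) :
    ch x z ≤ 2 * ch x y * ch y z := by
  have h1 : 0 < x.2 := hx
  have h2 : 0 < y.2 := hy
  have h3 : 0 < z.2 := hz
  have ha := norm_nonneg (x.1 - y.1)
  have hb := norm_nonneg (y.1 - z.1)
  have hc := norm_nonneg (x.1 - z.1)
  have hd : ‖x.1 - z.1‖ ≤ ‖x.1 - y.1‖ + ‖y.1 - z.1‖ := norm_sub_le_norm_sub_add_norm_sub _ _ _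
  unfold ch
  generalize ‖x.1 - y.1‖ = a at *
  generalize ‖y.1 - z.1‖ = b at *
  generalize ‖x.1 - z.1‖ = c at *
  generalize x.2 = t at *
  generalize y.2 = s at *
  generalize z.2 = r at *
  have h4 : c ^ 2 ≤ (a + b) ^ 2 := by gcongr
  have h5 : (c ^ 2 + t ^ 2 + r ^ 2) * s ^ 2 ≤ (a ^ 2 + t ^ 2 + s ^ 2) * (b ^ 2 + s ^ 2 + r ^ 2) := by
    have h6 : (c ^ 2 + t ^ 2 + r ^ 2) * s ^ 2 ≤ ((a + b) ^ 2 + t ^ 2 + r ^ 2) * s ^ 2 := by gcongr
    have h7 := sq_nonneg (a * b - s ^ 2)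
    have h8 : 0 ≤ a ^ 2 * r ^ 2 + t ^ 2 * b ^ 2 + t ^ 2 * r ^ 2 := by positivity
    nlinarith
  have h9 : 2 * ((a ^ 2 + t ^ 2 + s ^ 2) / (2 * t * s)) * ((b ^ 2 + s ^ 2 + r ^ 2) / (2 * s * r)) =
      ((a ^ 2 + t ^ 2 + s ^ 2) * (b ^ 2 + s ^ 2 + r ^ 2)) / (2 * t * r * s ^ 2) := by
    field_simp
  rw [h9, div_le_div_iff₀ (by positivity) (by positivity)]
  have h10 : 0 < 2 * t * r := by positivity
  nlinarith

private theorem le_ll {t s : ℝ} (ht : 0 < t) (h : t ^ 2 + s ^ 2 ≤ 4 * t * s) : s ≤ ll * t := by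
  unfold ll
  have h3 := Real.sqrt_nonneg 3
  have h4 := Real.sq_sqrt (show (0 : ℝ) ≤ 3 by norm_num)
  by_contra hcon
  push Not at hcon
  have h5 : 0 ≤ Real.sqrt 3 * t := by positivity
  have h6 : Real.sqrt 3 * t < s - 2 * t := by linarith
  have h7 : (Real.sqrt 3 * t) ^ 2 < (s - 2 * t) ^ 2 := by
    apply pow_lt_pow_left₀ h6 h5
    norm_num
  rw [mul_pow, h4] at h7
  nlinarith

private theorem ch_meas : Measurable (fun p : Pt × Pt => ch p.1 p.2) := by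
  unfold ch
  fun_prop

theorem hCHI (hACT : StACT) : StCHI := by
  refine ⟨?_, ?_, ?_, ?_, ?_, ?_⟩
  · intro x hx y hy
    have h1 : 0 < x.2 := hx
    have h2 : 0 < y.2 := hy
    refine ⟨?_, ?_, ?_, ?_⟩
    · unfold ch
      rw [le_div_iff₀ (by positivity)]
      nlinarith [sq_nonneg (x.2 - y.2), sq_nonneg ‖x.1 - y.1‖]
    · unfold ch
      rw [norm_sub_rev]
      congr 1 <;> ring
    · unfold ch
      rw [sub_self, norm_zero]
      field_simp
      ring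
    · rw [trace_Xm x y hx hy, Complex.ofReal_re]
  · intro g x hx y hy
    have h1 := ch_ga hACT g x y hx hy
    refine ⟨h1, ?_⟩
    unfold kk
    rw [h1]
  · intro x hx y hy z hz
    exact ch_tri x y z hx hy hz
  · intro x hx y hy h
    have h1 : 0 < x.2 := hx
    have h2 : 0 < y.2 := hy
    unfold ch at h
    rw [div_le_iff₀ (by positivity)] at h
    have h3 := sq_nonneg ‖x.1 - y.1‖
    refine ⟨le_ll h1 (by nlinarith), le_ll h2 (by nlinarith), ?_⟩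
    nlinarith [sq_nonneg (x.2 - y.2)]
  · intro x hx
    exact ⟨inv_Xm x hx, det_Xm x hx, herm_Xm x⟩
  · unfold kk
    exact Measurable.ite (measurableSet_le ch_meas measurable_const) measurable_const measurable_const

end Pool.Agent.Helper99.QA
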