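import Pool.Agent.Helper86.QA.St2

/-!
# Project QD, part A (MP_d112a4_gt): module SC2, the Schur test for a test function
-/

set_option autoImplicit false

open MeasureTheory Matrix Set Topology
open scoped ENNReal ComplexConjugate

namespace Pool.Agent.Helper99.QA

open Pool.Agent.Helper86.QA

private theorem lip {a b ε : ℝ} (ha : 0 ≤ a) (ha1 : a ≤ 1) (hb : 0 ≤ b) (hb1 : b ≤ 1) :
    (max (a * (1 - a) - ε) 0 - max (b * (1 - b) - ε) 0) ^ 2 ≤ (a - b) ^ 2 := by
  rw [sq_le_sq]
  have h1 := abs_max_sub_max_le_abs (a * (1 - a) - ε) (b * (1 - b) - ε) 0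
  refine h1.trans ?_
  have h2 : a * (1 - a) - ε - (b * (1 - b) - ε) = (a - b) * (1 - a - b) := by ring
  rw [h2, abs_mul]
  have h3 : |1 - a - b| ≤ 1 := by
    rw [abs_le]
    constructor <;> linarith
  calc |a - b| * |1 - a - b| ≤ |a - b| * 1 := mul_le_mul_of_nonneg_left h3 (abs_nonneg _)
    _ = |a - b| := mul_one _

private theorem kk_nonneg (x y : Pt) : 0 ≤ kk x y := by
  unfold kk
  split_ifs <;> norm_num

theorem hSC2 (hALP : StALP) (hHME : StHME) (hACU : StACU) (hFVS : StFVS) (hSCH : StSCH) : StSC2 := by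
  intro Γ _ ρ A B hKD D hD s hs hsum ε hε
  obtain ⟨_, _, _, _, _, hal⟩ := hALP
  obtain ⟨hm1, _, hm3, _⟩ := hHME
  obtain ⟨_, _, _, _, hinv, _, _⟩ := hACU Γ ρ A B hKD
  have hA : MeasurableSet A := hKD.opA.measurableSet
  have hvm : Measurable (hv A) := (hm3 A hA).1
  have h01 : ∀ x ∈ up, 0 ≤ hv A x ∧ hv A x ≤ 1 := fun x hx => (hm1 A x hA hx).2
  have hφm : Measurable (fun x => max (hv A x * (1 - hv A x) - ε) 0) :=
    (((hvm.mul (measurable_const.sub hvm)).sub measurable_const).max measurable_const)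
  have hE : MeasurableSet {x | ε ≤ hv A x ∧ hv A x ≤ 1 - ε} :=
    (measurableSet_le measurable_const hvm).inter (measurableSet_le hvm measurable_const)
  have hfin : ∫⁻ x in D, ENNReal.ofReal (max (hv A x * (1 - hv A x) - ε) 0 ^ 2) ∂vol ≠ ∞ := by
    have h1 : ∫⁻ x in D, ENNReal.ofReal (max (hv A x * (1 - hv A x) - ε) 0 ^ 2) ∂vol ≤
        ∫⁻ x in D, ({x | ε ≤ hv A x ∧ hv A x ≤ 1 - ε} : Set Pt).indicator 1 x ∂vol := by
      apply setLIntegral_mono' hD.mD
      intro x hx
      obtain ⟨h2, h3⟩ := h01 x (hD.sub hx)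
      by_cases hxE : x ∈ {x | ε ≤ hv A x ∧ hv A x ≤ 1 - ε}
      · rw [Set.indicator_of_mem hxE, Pi.one_apply]
        apply ENNReal.ofReal_le_one.2
        have h4 : 0 ≤ max (hv A x * (1 - hv A x) - ε) 0 := le_max_right _ _
        have h5 : max (hv A x * (1 - hv A x) - ε) 0 ≤ 1 := by
          apply max_le _ zero_le_one
          nlinarith
        nlinarith
      · rw [Set.indicator_of_notMem hxE]
        have h6 : hv A x * (1 - hv A x) - ε ≤ 0 := by
          by_contra hcon
          push Not at hcon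
          apply hxE
          constructor <;> nlinarith
        rw [max_eq_right h6]
        simp
    rw [lintegral_indicator_one hE, Measure.restrict_apply hE] at h1
    have h7 := hFVS Γ ρ A B hKD D hD ε hε
    rw [Set.inter_comm] at h7
    exact ne_of_lt (lt_of_le_of_lt h1 h7)
  have h1 := hSCH Γ ρ A B hKD D hD s (by linarith [hs.1]) hsum _ hφm (by
    intro γ x hx
    rw [(hinv γ x hx).2]) hfin
  have h2 : ENNReal.ofReal (2 * ((2 - s) * (VV - al 1))) ≤ ENNReal.ofReal (2 * (VV - al s)) :=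
    ENNReal.ofReal_le_ofReal (by linarith [hal s hs])
  refine (mul_le_mul_left h2 _).trans (h1.trans ?_)
  apply setLIntegral_mono' hD.mD
  intro x hx
  unfold en
  apply lintegral_mono_ae
  filter_upwards [ae_up] with y hy
  obtain ⟨a1, a2⟩ := h01 x (hD.sub hx)
  obtain ⟨b1, b2⟩ := h01 y hy
  exact ENNReal.ofReal_le_ofReal (mul_le_mul_of_nonneg_left (lip a1 a2 b1 b2) (kk_nonneg x y))

end Pool.Agent.Helper99.QA
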