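import Pool.Agent.Helper86.QA.St3

/-!
# Project QD (MP_d112a4_gt), module UNF: signed unfolding
-/

set_option autoImplicit false

open MeasureTheory Matrix Set Topology
open scoped ENNReal ComplexConjugate

namespace Pool.Agent.Helper99.QA

open Pool.Agent.Helper86.QA

private theorem UNF_key (hSW1 : StSW1) (Γ : Type) [Group Γ] [Countable Γ] (α : Type)
    [MeasurableSpace α] (a : Γ → α → α) (S D : Set α) (μ : Measure α) [SigmaFinite μ]
    (f ψ : α → ℝ) (hA : ActOn a S μ) (hD : FDOn a S D) (hψ : Measurable ψ) (hp : ∀ x, 0 ≤ ψ x)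
    (h1 : ∀ x ∈ S, f x ≠ 0 → ∑' γ : Γ, ENNReal.ofReal (ψ (a γ x)) = 1)
    (g : α → ℝ) (hg : Measurable g) (hi : ∀ (γ : Γ), ∀ x ∈ S, g (a γ x) = g x)
    (h0 : ∀ x, f x = 0 → g x = 0) :
    ∫⁻ x in D, ENNReal.ofReal (g x) ∂μ = ∫⁻ x, ENNReal.ofReal (g x * ψ x) ∂μ := by
  have h := (hSW1 Γ α a S D μ (fun x => ENNReal.ofReal (g x)) hA hD hg.ennreal_ofReal
    (fun γ x hx => by rw [hi γ x hx])).1 (fun x => ENNReal.ofReal (ψ x)) hψ.ennreal_ofReal
  have e1 : ∫⁻ x in D, ENNReal.ofReal (g x) ∂μ =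
      ∫⁻ x in D, ENNReal.ofReal (g x) * ∑' γ : Γ, ENNReal.ofReal (ψ (a γ x)) ∂μ := by
    refine setLIntegral_congr_fun hD.mD ?_
    intro x hx
    show ENNReal.ofReal (g x) = ENNReal.ofReal (g x) * ∑' γ : Γ, ENNReal.ofReal (ψ (a γ x))
    by_cases hf : f x = 0
    · rw [h0 x hf, ENNReal.ofReal_zero, zero_mul]
    · rw [h1 x (hD.sub hx) hf, mul_one]
  rw [e1, h]
  refine lintegral_congr ?_
  intro x
  rw [ENNReal.ofReal_mul' (hp x)]

theorem hUNF (hSW1 : StSW1) : StUNF := by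
  intro Γ _ _ α _ a S D μ _ f ψ hA hD hf hψ hp hi h1 hfin
  have k1 := UNF_key hSW1 Γ α a S D μ f ψ hA hD hψ hp h1 f hf hi (fun x hx => hx)
  have k2 := UNF_key hSW1 Γ α a S D μ f ψ hA hD hψ hp h1 (fun x => - f x) hf.neg
    (fun γ x hx => by rw [hi γ x hx]) (fun x hx => by rw [hx, neg_zero])
  have k3 := UNF_key hSW1 Γ α a S D μ f ψ hA hD hψ hp h1 (fun x => |f x|) hf.abs
    (fun γ x hx => by rw [hi γ x hx]) (fun x hx => by rw [hx, abs_zero])
  have i1 : Integrable f (μ.restrict D) := by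
    refine ⟨hf.aestronglyMeasurable, ?_⟩
    rw [hasFiniteIntegral_iff_norm]
    exact lt_top_iff_ne_top.2 hfin
  have i2 : Integrable (fun x => f x * ψ x) μ := by
    refine ⟨(hf.mul hψ).aestronglyMeasurable, ?_⟩
    rw [hasFiniteIntegral_iff_norm]
    have e : ∫⁻ x, ENNReal.ofReal ‖f x * ψ x‖ ∂μ = ∫⁻ x, ENNReal.ofReal (|f x| * ψ x) ∂μ := by
      refine lintegral_congr ?_
      intro x
      rw [norm_mul, Real.norm_eq_abs, Real.norm_eq_abs, abs_of_nonneg (hp x)]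
    rw [e, ← k3]
    exact lt_top_iff_ne_top.2 hfin
  rw [integral_eq_lintegral_pos_part_sub_lintegral_neg_part i1,
    integral_eq_lintegral_pos_part_sub_lintegral_neg_part i2, k1, k2]
  simp only [neg_mul]

end Pool.Agent.Helper99.QA
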